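import Mathlib
import Pool.Agent.W188.EM.Stm

set_option autoImplicit false

/-!
# EM-FEJ: a nonnegative trigonometric polynomial (helper237)
-/

open Finset

namespace Pool.Agent.W237.EM

/-- the trigonometric double sum -/
lemma fejer_eq (y : ℝ) (R : ℕ) :
    (∑ l ∈ range (R + 1), Real.cos (l * y)) ^ 2 + (∑ l ∈ range (R + 1), Real.sin (l * y)) ^ 2
      = (R + 1) + 2 * ∑ j ∈ Icc 1 R, ((R : ℝ) + 1 - j) * Real.cos (j * y) := by
  induction R with
  | zero => simp
  | succ R ih =>
    rw [Finset.sum_range_succ _ (R + 1), Finset.sum_range_succ _ (R + 1)]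
    have hcross : ∑ l ∈ range (R + 1), Real.cos (((R : ℝ) + 1 - l) * y)
        = Real.cos (((R : ℝ) + 1) * y) * (∑ l ∈ range (R + 1), Real.cos (l * y))
          + Real.sin (((R : ℝ) + 1) * y) * (∑ l ∈ range (R + 1), Real.sin (l * y)) := by
      rw [Finset.mul_sum, Finset.mul_sum, ← Finset.sum_add_distrib]
      apply Finset.sum_congr rfl
      intro l _
      rw [sub_mul, Real.cos_sub]
    have hre : ∑ l ∈ range (R + 1), Real.cos (((R : ℝ) + 1 - l) * y)
        = ∑ j ∈ Icc 1 (R + 1), Real.cos (j * y) := by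
      apply Finset.sum_bij (fun l _ => R + 1 - l)
      · intro l hl
        simp only [Finset.mem_range] at hl
        simp only [Finset.mem_Icc]
        omega
      · intro l hl l' hl' h
        simp only [Finset.mem_range] at hl hl'
        omega
      · intro j hj
        simp only [Finset.mem_Icc] at hj
        exact ⟨R + 1 - j, by simp only [Finset.mem_range]; omega, by omega⟩
      · intro l hl
        simp only [Finset.mem_range] at hl
        rw [Nat.cast_sub (by omega)]
        push_cast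
        rfl
    have h1 : ∑ j ∈ Icc 1 (R + 1), (((R + 1 : ℕ) : ℝ) + 1 - j) * Real.cos (j * y)
        = ∑ j ∈ Icc 1 R, ((R : ℝ) + 1 - j) * Real.cos (j * y)
          + ∑ j ∈ Icc 1 (R + 1), Real.cos (j * y) := by
      rw [Finset.sum_Icc_succ_top (by omega), Finset.sum_Icc_succ_top (by omega), ← add_assoc,
        ← Finset.sum_add_distrib]
      congr 1
      · apply Finset.sum_congr rfl
        intro j _
        push_cast
        ring
      · push_cast
        ring
    rw [h1, ← hre, hcross]
    have hcs := Real.sin_sq_add_cos_sq (((R : ℝ) + 1) * y)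
    push_cast
    nlinarith [ih, hcs]

lemma fejer_nonneg (y : ℝ) (R : ℕ) :
    0 ≤ 1 + 2 * ∑ j ∈ Icc 1 R, (1 - (j : ℝ) / (R + 1)) * Real.cos (j * y) := by
  have hR : (0 : ℝ) < (R : ℝ) + 1 := by positivity
  have h := fejer_eq y R
  have h2 : ((R : ℝ) + 1) * (1 + 2 * ∑ j ∈ Icc 1 R, (1 - (j : ℝ) / (R + 1)) * Real.cos (j * y))
      = (R + 1) + 2 * ∑ j ∈ Icc 1 R, ((R : ℝ) + 1 - j) * Real.cos (j * y) := by
    rw [mul_add, mul_one, mul_left_comm, Finset.mul_sum]
    congr 2
    apply Finset.sum_congr rfl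
    intro j _
    field_simp
  rw [← h] at h2
  have h3 : 0 ≤ ((R : ℝ) + 1)
      * (1 + 2 * ∑ j ∈ Icc 1 R, (1 - (j : ℝ) / (R + 1)) * Real.cos (j * y)) := by
    rw [h2]; positivity
  exact nonneg_of_mul_nonneg_right h3 hR

/-- the sample points -/
noncomputable def xr (n r : ℕ) : ℝ := (2 * r + 1) * Real.pi / n

lemma sum_cos_zero (n j : ℕ) (hj : 1 ≤ j) (hjn : j + 1 ≤ n) :
    ∑ r ∈ range n, Real.cos (j * xr n r) = 0 := by
  have hn : (0 : ℝ) < n := by
    have : 0 < n := by omega
    exact_mod_cast this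
  have hsin : 0 < Real.sin (j * Real.pi / n) := by
    apply Real.sin_pos_of_pos_of_lt_pi
    · have : (0 : ℝ) < j := by exact_mod_cast hj
      positivity
    · rw [div_lt_iff₀ hn]
      have : (j : ℝ) < n := by exact_mod_cast (by omega : j < n)
      nlinarith [Real.pi_pos]
  have key : ∀ N : ℕ, 2 * Real.sin (j * Real.pi / n) * ∑ r ∈ range N, Real.cos (j * xr n r)
      = Real.sin (2 * N * (j * Real.pi / n)) := by
    intro N
    induction N with
    | zero => simp
    | succ N ih =>
      rw [Finset.sum_range_succ, mul_add, ih]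
      have e1 : (j : ℝ) * xr n N = 2 * N * (j * Real.pi / n) + j * Real.pi / n := by
        unfold xr; field_simp
      have e2 : (2 : ℝ) * ((N + 1 : ℕ) : ℝ) * (j * Real.pi / n)
          = 2 * N * (j * Real.pi / n) + 2 * (j * Real.pi / n) := by
        push_cast; ring
      rw [e1, e2, Real.cos_add, Real.sin_add (2 * (N : ℝ) * (j * Real.pi / n)) (2 * (j * Real.pi / n)),
        Real.sin_two_mul, Real.cos_two_mul]
      have hcs := Real.sin_sq_add_cos_sq (j * Real.pi / n)
      linear_combination (-2 * Real.sin (2 * (N : ℝ) * (j * Real.pi / n))) * hcs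
  have h := key n
  have e3 : (2 : ℝ) * n * (j * Real.pi / n) = j * (2 * Real.pi) := by field_simp
  rw [e3] at h
  have e4 : Real.sin (j * (2 * Real.pi)) = 0 := by
    rw [show (j : ℝ) * (2 * Real.pi) = ((2 * j : ℕ) : ℝ) * Real.pi by push_cast; ring]
    exact Real.sin_nat_mul_pi _
  rw [e4] at h
  rcases mul_eq_zero.mp h with h' | h'
  · exfalso; linarith
  · exact h'

/-- the weights -/
noncomputable def wr (n r : ℕ) : ℝ := (Real.cos (Real.pi / n) - Real.cos (xr n r)) / n

lemma wr_nonneg (n r : ℕ) (hr : r < n) : 0 ≤ wr n r := by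
  have hn : (0 : ℝ) < n := by
    have : 0 < n := by omega
    exact_mod_cast this
  unfold wr
  apply div_nonneg _ hn.le
  rw [sub_nonneg]
  have hpi := Real.pi_pos
  have hx1 : Real.pi / n ≤ xr n r := by
    unfold xr
    rw [div_le_div_iff_of_pos_right hn]
    have : (0 : ℝ) ≤ r := Nat.cast_nonneg r
    nlinarith
  have hx2 : xr n r ≤ 2 * Real.pi - Real.pi / n := by
    unfold xr
    rw [div_le_iff₀ hn, sub_mul, div_mul_cancel₀ _ hn.ne']
    have : (r : ℝ) + 1 ≤ n := by exact_mod_cast (by omega : r + 1 ≤ n)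
    nlinarith
  have h0 : 0 ≤ Real.pi / n := by positivity
  rcases le_total (xr n r) Real.pi with h | h
  · exact Real.cos_le_cos_of_nonneg_of_le_pi h0 h hx1
  · rw [← Real.cos_two_pi_sub (xr n r)]
    exact Real.cos_le_cos_of_nonneg_of_le_pi h0 (by linarith) (by linarith)

lemma sum_w_cos (n j : ℕ) :
    ∑ r ∈ range n, wr n r * Real.cos (j * xr n r)
      = (Real.cos (Real.pi / n) * (∑ r ∈ range n, Real.cos (j * xr n r))
        - ∑ r ∈ range n, Real.cos (xr n r) * Real.cos (j * xr n r)) / n := by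
  rw [Finset.mul_sum, ← Finset.sum_sub_distrib, Finset.sum_div]
  apply Finset.sum_congr rfl
  intro r _
  unfold wr
  ring

lemma cos_mul (x : ℝ) (j : ℕ) (hj : 1 ≤ j) :
    Real.cos x * Real.cos (j * x)
      = (Real.cos (((j - 1 : ℕ) : ℝ) * x) + Real.cos (((j + 1 : ℕ) : ℝ) * x)) / 2 := by
  rw [Nat.cast_sub hj]
  push_cast
  rw [show ((j : ℝ) - 1) * x = j * x - x by ring, show ((j : ℝ) + 1) * x = j * x + x by ring,
    Real.cos_sub, Real.cos_add]
  ring

theorem em_fej : Pool.Agent.W188.EM.StFej := by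
  intro p ε hp hε
  obtain ⟨R0, hR0⟩ := exists_nat_gt (1 / ε)
  set R : ℕ := R0 + 1 with hRdef
  set n : ℕ := p + 2 with hn
  have hnpos : (0 : ℝ) < n := by
    have : 0 < n := by omega
    exact_mod_cast this
  have hncast : (n : ℝ) = (p : ℝ) + 2 := by rw [hn]; push_cast; ring
  refine ⟨R, fun j => (1 - (j : ℝ) / (R + 1)) * ∑ r ∈ range n, wr n r * Real.cos (j * xr n r),
    by omega, ?_, ?_, ?_, ?_⟩
  · -- κ 0
    have h1 := sum_cos_zero n 1 le_rfl (by omega)
    simp only [Nat.cast_one, one_mul] at h1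
    simp only [Nat.cast_zero, zero_div, sub_zero, one_mul, zero_mul, Real.cos_zero, mul_one]
    unfold wr
    rw [← Finset.sum_div, Finset.sum_sub_distrib, h1, Finset.sum_const, Finset.card_range,
      nsmul_eq_mul, sub_zero, mul_div_cancel_left₀ _ hnpos.ne', hncast]
  · -- κ 1
    simp only
    rw [sum_w_cos, sum_cos_zero n 1 le_rfl (by omega)]
    have h2 : ∑ r ∈ range n, Real.cos (xr n r) * Real.cos (((1 : ℕ) : ℝ) * xr n r) = n / 2 := by
      have : ∀ r ∈ range n, Real.cos (xr n r) * Real.cos (((1 : ℕ) : ℝ) * xr n r)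
          = (1 + Real.cos (((2 : ℕ) : ℝ) * xr n r)) / 2 := by
        intro r _
        rw [cos_mul _ 1 le_rfl]
        simp
      rw [Finset.sum_congr rfl this, ← Finset.sum_div, Finset.sum_add_distrib,
        sum_cos_zero n 2 (by omega) (by omega)]
      simp
    rw [h2]
    have hR1 : (0 : ℝ) < (R : ℝ) + 1 := by positivity
    have hb : 1 / ((R : ℝ) + 1) ≤ ε := by
      rw [div_le_iff₀ hR1]
      rw [div_lt_iff₀ hε] at hR0
      have : (R : ℝ) = R0 + 1 := by rw [hRdef]; push_cast; ring
      rw [this]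
      nlinarith
    have e : (Real.cos (Real.pi / n) * 0 - (n : ℝ) / 2) / n = -(1 / 2) := by
      field_simp
      ring
    rw [e]
    push_cast
    linarith
  · -- κ j = 0
    intro j hj2 hjp
    simp only
    rw [sum_w_cos, sum_cos_zero n j (by omega) (by omega)]
    have h2 : ∑ r ∈ range n, Real.cos (xr n r) * Real.cos ((j : ℝ) * xr n r) = 0 := by
      have : ∀ r ∈ range n, Real.cos (xr n r) * Real.cos ((j : ℝ) * xr n r)
          = (Real.cos (((j - 1 : ℕ) : ℝ) * xr n r) + Real.cos (((j + 1 : ℕ) : ℝ) * xr n r)) / 2 := by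
        intro r _
        exact cos_mul _ j (by omega)
      rw [Finset.sum_congr rfl this, ← Finset.sum_div, Finset.sum_add_distrib,
        sum_cos_zero n (j - 1) (by omega) (by omega), sum_cos_zero n (j + 1) (by omega) (by omega)]
      simp
    rw [h2]
    simp
  · -- nonnegativity
    intro x
    have key : ∀ r ∈ range n, 0 ≤ wr n r *
        (1 + 2 * ∑ j ∈ Icc 1 R, (1 - (j : ℝ) / (R + 1)) * (Real.cos (j * x) * Real.cos (j * xr n r))) := by
      intro r hr
      apply mul_nonneg (wr_nonneg n r (Finset.mem_range.mp hr))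
      have h1 := fejer_nonneg (x - xr n r) R
      have h2 := fejer_nonneg (x + xr n r) R
      have h3 : ∑ j ∈ Icc 1 R, (1 - (j : ℝ) / (R + 1)) * Real.cos (j * (x - xr n r))
          + ∑ j ∈ Icc 1 R, (1 - (j : ℝ) / (R + 1)) * Real.cos (j * (x + xr n r))
          = 2 * ∑ j ∈ Icc 1 R, (1 - (j : ℝ) / (R + 1)) * (Real.cos (j * x) * Real.cos (j * xr n r)) := by
        rw [← Finset.sum_add_distrib, Finset.mul_sum]
        apply Finset.sum_congr rfl
        intro j _
        rw [mul_sub, mul_add, Real.cos_sub, Real.cos_add]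
        ring
      linarith
    have hs := Finset.sum_nonneg key
    have e : ∑ r ∈ range n, wr n r *
        (1 + 2 * ∑ j ∈ Icc 1 R, (1 - (j : ℝ) / (R + 1)) * (Real.cos (j * x) * Real.cos (j * xr n r)))
        = (fun j : ℕ => (1 - (j : ℝ) / (R + 1)) * ∑ r ∈ range n, wr n r * Real.cos (j * xr n r)) 0
          + 2 * ∑ j ∈ Icc 1 R, (fun j : ℕ => (1 - (j : ℝ) / (R + 1))
            * ∑ r ∈ range n, wr n r * Real.cos (j * xr n r)) j * Real.cos (j * x) := by
      simp only [Nat.cast_zero, zero_div, sub_zero, one_mul, zero_mul, Real.cos_zero, mul_one]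
      simp only [mul_add, mul_one, Finset.sum_add_distrib]
      congr 1
      simp only [Finset.mul_sum, Finset.sum_mul]
      rw [Finset.sum_comm]
      apply Finset.sum_congr rfl
      intro j _
      apply Finset.sum_congr rfl
      intro r _
      ring
    rw [e] at hs
    exact hs

end Pool.Agent.W237.EM
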