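import Mathlib
import Pool.Agent.W188.EM.Stm

set_option autoImplicit false

/-!
# EM-POSI: consequence of the nonnegative trigonometric polynomial (helper237)
-/

open Finset

namespace Pool.Agent.W237.EM

lemma re_pow_unit (z : ℂ) (hz : ‖z‖ = 1) (j : ℕ) : (z ^ j).re = Real.cos (j * z.arg) := by
  have h : z = Complex.exp (z.arg * Complex.I) := by
    have := Complex.norm_mul_exp_arg_mul_I z
    rw [hz] at this
    simpa using this.symm
  conv_lhs => rw [h]
  rw [← Complex.exp_nat_mul, show (j : ℂ) * (z.arg * Complex.I) = ((j * z.arg : ℝ) : ℂ) * Complex.I by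
    push_cast; ring]
  exact Complex.exp_ofReal_mul_I_re _

theorem em_posi (h : Pool.Agent.W188.EM.StFej) : Pool.Agent.W188.EM.StPosi := by
  intro p ε hp hε hε1
  have hε' : 0 < min (ε / 4) (1 / 2) := by positivity
  obtain ⟨R, κ, hR, h0, h1, hz, hnn⟩ := h p (min (ε / 4) (1 / 2)) hp hε'
  set η : ℝ := min (ε / 4) (1 / 2) with hη
  have hη4 : η ≤ ε / 4 := min_le_left _ _
  have hη2 : η ≤ 1 / 2 := min_le_right _ _
  have h1η : 0 < 1 - η := by linarith
  set S : ℝ := ∑ j ∈ Icc (p + 1) R, |κ j| with hS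
  have hS0 : 0 ≤ S := Finset.sum_nonneg (fun _ _ => abs_nonneg _)
  refine ⟨R, 2 * S / (1 - η), hR, by positivity, ?_⟩
  intro f X a b δ hab hf hX hf0 hX1 hδ
  set A : ℕ → ℂ := fun j => ∫ t in a..b, (f t : ℂ) * X t ^ j with hA
  have hκ0 : 0 ≤ Real.cos (Real.pi / (p + 2)) ∧ Real.cos (Real.pi / (p + 2)) ≤ 1 := by
    refine ⟨?_, Real.cos_le_one _⟩
    apply Real.cos_nonneg_of_neg_pi_div_two_le_of_le
    · have : 0 ≤ Real.pi / (p + 2) := by positivity
      linarith [Real.pi_pos]
    · rw [div_le_div_iff₀ (by positivity) (by norm_num)]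
      have : (0 : ℝ) ≤ p := Nat.cast_nonneg p
      nlinarith [Real.pi_pos]
  have hF : 0 ≤ ∫ t in a..b, f t :=
    intervalIntegral.integral_nonneg hab (fun t _ => hf0 t)
  -- the unit
  obtain ⟨u, hu, huA⟩ : ∃ u : ℂ, ‖u‖ = 1 ∧ u * A 1 = (‖A 1‖ : ℂ) := by
    by_cases hA0 : A 1 = 0
    · exact ⟨1, by simp, by rw [hA0]; simp⟩
    · have hne : ‖A 1‖ ≠ 0 := norm_ne_zero_iff.mpr hA0
      refine ⟨(starRingEnd ℂ) (A 1) / ‖A 1‖, ?_, ?_⟩
      · rw [norm_div, RCLike.norm_conj, Complex.norm_real, norm_norm, div_self hne]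
      · rw [div_mul_eq_mul_div, mul_comm, Complex.mul_conj, Complex.normSq_eq_norm_sq]
        push_cast
        have : (‖A 1‖ : ℂ) ≠ 0 := by exact_mod_cast hne
        field_simp
  have hint : ∀ j : ℕ, IntervalIntegrable (fun t => (f t : ℂ) * X t ^ j) MeasureTheory.volume a b := by
    intro j
    apply Continuous.intervalIntegrable
    exact (Complex.continuous_ofReal.comp hf).mul (hX.pow j)
  have hre : ∀ j : ℕ, ∫ t in a..b, f t * ((u * X t) ^ j).re = (u ^ j * A j).re := by
    intro j
    have e1 : u ^ j * A j = ∫ t in a..b, u ^ j * ((f t : ℂ) * X t ^ j) := by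
      rw [intervalIntegral.integral_const_mul]
    rw [e1]
    have e2 := Complex.reCLM.intervalIntegral_comp_comm ((hint j).const_mul (u ^ j))
    simp only [Complex.reCLM_apply] at e2
    rw [← e2]
    apply intervalIntegral.integral_congr
    intro t _
    simp only
    rw [mul_pow, show u ^ j * ((f t : ℂ) * X t ^ j) = (f t : ℂ) * (u ^ j * X t ^ j) by ring,
      Complex.re_ofReal_mul]
  have hcontj : ∀ j : ℕ, Continuous (fun t => f t * ((u * X t) ^ j).re) := by
    intro j
    exact hf.mul (Complex.continuous_re.comp ((continuous_const.mul hX).pow j))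
  have hmain : 0 ≤ κ 0 * (∫ t in a..b, f t) + 2 * ∑ j ∈ Icc 1 R, κ j * (u ^ j * A j).re := by
    have e3 : κ 0 * (∫ t in a..b, f t) + 2 * ∑ j ∈ Icc 1 R, κ j * (u ^ j * A j).re
        = ∫ t in a..b, (κ 0 * f t + 2 * ∑ j ∈ Icc 1 R, κ j * (f t * ((u * X t) ^ j).re)) := by
      rw [intervalIntegral.integral_add, intervalIntegral.integral_const_mul,
        intervalIntegral.integral_const_mul, intervalIntegral.integral_finset_sum]
      · congr 2
        apply Finset.sum_congr rfl
        intro j _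
        rw [intervalIntegral.integral_const_mul, hre]
      · intro j _
        exact ((hcontj j).intervalIntegrable a b).const_mul _
      · exact (hf.intervalIntegrable a b).const_mul _
      · apply Continuous.intervalIntegrable
        apply continuous_const.mul
        apply continuous_finset_sum
        intro j _
        exact continuous_const.mul (hcontj j)
    rw [e3]
    apply intervalIntegral.integral_nonneg hab
    intro t _
    have hunit : ‖u * X t‖ = 1 := by rw [norm_mul, hu, hX1, mul_one]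
    have hn := hnn (u * X t).arg
    have e4 : κ 0 * f t + 2 * ∑ j ∈ Icc 1 R, κ j * (f t * ((u * X t) ^ j).re)
        = f t * (κ 0 + 2 * ∑ j ∈ Icc 1 R, κ j * Real.cos (j * (u * X t).arg)) := by
      rw [mul_add, mul_left_comm (f t) 2, Finset.mul_sum (s := Icc 1 R) (a := f t)]
      congr 1
      · ring
      · congr 1
        apply Finset.sum_congr rfl
        intro j _
        rw [re_pow_unit _ hunit]
        ring
    rw [e4]
    exact mul_nonneg (hf0 t) hn
  -- bound of the sum
  have hterm : ∀ j ∈ Icc 1 R, κ j * (u ^ j * A j).re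
      ≤ (if j = 1 then -(1 - η) / 2 * ‖A 1‖ else 0) + (if p + 1 ≤ j then |κ j| * δ else 0) := by
    intro j hj
    rw [Finset.mem_Icc] at hj
    by_cases hj1 : j = 1
    · subst hj1
      rw [if_pos rfl, if_neg (by omega), add_zero, pow_one, huA, Complex.ofReal_re]
      exact mul_le_mul_of_nonneg_right h1 (norm_nonneg _)
    · rw [if_neg hj1, zero_add]
      by_cases hjp : p + 1 ≤ j
      · rw [if_pos hjp]
        have hb := hδ j hjp hj.2
        calc κ j * (u ^ j * A j).re ≤ |κ j * (u ^ j * A j).re| := le_abs_self _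
          _ = |κ j| * |(u ^ j * A j).re| := abs_mul _ _
          _ ≤ |κ j| * ‖u ^ j * A j‖ := by
              exact mul_le_mul_of_nonneg_left (Complex.abs_re_le_norm _) (abs_nonneg _)
          _ = |κ j| * ‖A j‖ := by rw [norm_mul, norm_pow, hu, one_pow, one_mul]
          _ ≤ |κ j| * δ := mul_le_mul_of_nonneg_left hb (abs_nonneg _)
      · rw [if_neg hjp, hz j (by omega) (by omega), zero_mul]
  have hsum := Finset.sum_le_sum hterm
  rw [Finset.sum_add_distrib, Finset.sum_ite_eq' (Icc 1 R) 1, if_pos (by simp [hR]),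
    ← Finset.sum_filter] at hsum
  have hfil : (Icc 1 R).filter (fun j => p + 1 ≤ j) = Icc (p + 1) R := by
    ext j
    simp only [Finset.mem_filter, Finset.mem_Icc]
    omega
  rw [hfil, ← Finset.sum_mul, ← hS] at hsum
  have hfin : (1 - η) * ‖A 1‖ ≤ κ 0 * (∫ t in a..b, f t) + 2 * S * δ := by
    nlinarith [hmain, hsum]
  have hA1 : ‖∫ t in a..b, (f t : ℂ) * X t‖ = ‖A 1‖ := by
    simp only [hA, pow_one]
  rw [hA1]
  rw [h0] at hfin
  have hstep : Real.cos (Real.pi / (p + 2)) ≤ (1 - η) * (Real.cos (Real.pi / (p + 2)) + ε) := by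
    nlinarith [hκ0.1, hκ0.2, hη4, hε']
  have hgoal : (1 - η) * ‖A 1‖ ≤ (1 - η) * ((Real.cos (Real.pi / (p + 2)) + ε) * (∫ t in a..b, f t)
      + 2 * S / (1 - η) * δ) := by
    have e5 : (1 - η) * ((Real.cos (Real.pi / (p + 2)) + ε) * (∫ t in a..b, f t)
      + 2 * S / (1 - η) * δ) = (1 - η) * (Real.cos (Real.pi / (p + 2)) + ε) * (∫ t in a..b, f t)
        + 2 * S * δ := by
      field_simp
    rw [e5]
    have := mul_le_mul_of_nonneg_right hstep hF
    linarith
  exact le_of_mul_le_mul_left hgoal h1η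

end Pool.Agent.W237.EM
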